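import Pool.Agent.Lib.MP_69ab1c_al_ko.Final

namespace Pool.Agent.Results.MP_69ab1c_al.KoszulCriterion

open Pool.Agent.KosInd

universe u

/-- For groups of matrices `U ≤ P ≤ G` with `U` normal in `P`, and any `G`-stable space `V` of
matrices which contains `Lie U`, the following are equivalent: `R^i Ind_P^G S^m((Lie U)^*) = 0` for
all `m` and all `i > 0`; the same for `m ≤ dim V - dim Lie U`;
`R^j Ind_P^G Λ^m((V / Lie U)^*) = 0` for all `j > m`. -/
theorem result {k : Type u} [Field k] [Infinite k] {N : ℕ} (G P U : Subgroup (GL (Fin N) k))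
    (_hPG : P ≤ G) (_hUP : U ≤ P) (hU : ∀ x ∈ P, ∀ u ∈ U, x * u * x⁻¹ ∈ U)
    (V : Submodule k (Matrix (Fin N) (Fin N) k))
    (hV : ∀ g ∈ G, ∀ X ∈ V, (g : Matrix (Fin N) (Fin N) k) * X *
      ((g⁻¹ : GL (Fin N) k) : Matrix (Fin N) (Fin N) k) ∈ V) (hUV : lieAlg U ≤ V) :
    List.TFAE [
      ∀ m i, SymVanishes G P U hU m i,
      ∀ m i, m ≤ Module.finrank k V - Module.finrank k (lieAlg U) → SymVanishes G P U hU m i,
      ∀ m i, m ≤ i → AltVanishes G P U V hV m i] :=
  koszul_criterion G P U hU V hV hUV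

end Pool.Agent.Results.MP_69ab1c_al.KoszulCriterion
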